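import Pool.Agent.Helper10.EX4

/-!
# Continuous images of extendial compact spaces

Both questions of Arhangel'skii and Choban have a negative answer: there is an extendial compact
Hausdorff space with a continuous (Hausdorff, compact) image that is not even t-extendial.

Construction. `D` is the double arrow space, realised as the antitone maps `ℝ → Bool`, and
`X = D × A` where `A` is the one-point compactification of a discrete set `I` of size continuum.
Every nonempty closed subset of `D` is a retract of `D`, which makes `X` extendial.
Choose `idx : ℝ → I` with uncountable fibres. The image `Y` glues, in the slice over `i`, the two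
points `t⁻, t⁺` of `D` for every `t` with `idx t = i`. The slice over the point at infinity,
a copy of `D`, is a closed subspace of `Y` that is not t-embedded in `Y`.
-/

namespace Pool.Agent.Results.MP_a74b27_gt.ImageNotExtendial

open Pool.Agent.Helper10.EX

/-- Extendial spaces are t-extendial. -/
theorem extendial_tExtendial {X : Type*} [TopologicalSpace X] (h : Extendial X) :
    TExtendial X := by
  intro K hK
  obtain ⟨φ, hφ⟩ := h K hK
  exact ⟨φ, φ.continuous, hφ⟩

/-- There are compact Hausdorff spaces `X`, `Y` and a continuous surjection `X → Y` such that `X`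
is extendial and `Y` is not t-extendial. -/
theorem result : ∃ (X Y : Type) (_ : TopologicalSpace X) (_ : TopologicalSpace Y) (f : X → Y),
    CompactSpace X ∧ T2Space X ∧ CompactSpace Y ∧ T2Space Y ∧ Continuous f ∧
    Function.Surjective f ∧ Extendial X ∧ ¬ TExtendial Y :=
  main

/-- Negative answer to Q1. -/
theorem q1 : ∃ (X Y : Type) (_ : TopologicalSpace X) (_ : TopologicalSpace Y) (f : X → Y),
    CompactSpace X ∧ T2Space X ∧ CompactSpace Y ∧ T2Space Y ∧ Continuous f ∧
    Function.Surjective f ∧ Extendial X ∧ ¬ Extendial Y := by
  obtain ⟨X, Y, tX, tY, f, h1, h2, h3, h4, h5, h6, h7, h8⟩ := result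
  exact ⟨X, Y, tX, tY, f, h1, h2, h3, h4, h5, h6, h7, fun h => h8 (extendial_tExtendial h)⟩

/-- Negative answer to Q2. -/
theorem q2 : ∃ (X Y : Type) (_ : TopologicalSpace X) (_ : TopologicalSpace Y) (f : X → Y),
    CompactSpace X ∧ T2Space X ∧ CompactSpace Y ∧ T2Space Y ∧ Continuous f ∧
    Function.Surjective f ∧ TExtendial X ∧ ¬ TExtendial Y := by
  obtain ⟨X, Y, tX, tY, f, h1, h2, h3, h4, h5, h6, h7, h8⟩ := result
  exact ⟨X, Y, tX, tY, f, h1, h2, h3, h4, h5, h6, extendial_tExtendial h7, h8⟩

end Pool.Agent.Results.MP_a74b27_gt.ImageNotExtendial
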